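import Mathlib

set_option autoImplicit false

namespace Pool.Agent.MP_918b6a_al

/-- positions -/
abbrev Ps : Type := Colex (ℕ →₀ WithBot ℤ)

/-- positions with a kind: `false` is the s-kind, `true` the y-kind -/
abbrev Q : Type := Lex (Ps × Bool)

/-- configurations -/
abbrev Om : Type := Lex (Q →₀ ℤ)

noncomputable def val (w : Om) (q : Q) : ℤ := (ofLex w : Q →₀ ℤ) q

theorem om_ext {a b : Om} (h : ∀ q, val a q = val b q) : a = b := by
  have : (ofLex a : Q →₀ ℤ) = ofLex b := Finsupp.ext h
  exact ofLex.injective this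

theorem om_lt {a b : Om} : a < b ↔ ∃ q, (∀ r, r < q → val a r = val b r) ∧ val a q < val b q :=
  Iff.rfl

theorem val_add (a b : Om) (q : Q) : val (a + b) q = val a q + val b q := rfl

theorem val_sub (a b : Om) (q : Q) : val (a - b) q = val a q - val b q := rfl

theorem val_zero (q : Q) : val 0 q = 0 := rfl

theorem ps_lt {a b : Ps} : a < b ↔ ∃ i, (∀ j, i < j → (ofColex a) j = (ofColex b) j) ∧
    (ofColex a) i < (ofColex b) i := Iff.rfl

def sp (p : Ps) : Q := toLex (p, false)
def yp (p : Ps) : Q := toLex (p, true)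
def loc (q : Q) : Ps := (ofLex q).1
def kd (q : Q) : Bool := (ofLex q).2

@[simp] theorem loc_sp (p : Ps) : loc (sp p) = p := rfl
@[simp] theorem loc_yp (p : Ps) : loc (yp p) = p := rfl
@[simp] theorem kd_sp (p : Ps) : kd (sp p) = false := rfl
@[simp] theorem kd_yp (p : Ps) : kd (yp p) = true := rfl

theorem q_cases (q : Q) : q = sp (loc q) ∨ q = yp (loc q) := by
  rcases h : kd q with _ | _
  · left
    have : ofLex q = (loc q, false) := Prod.ext rfl h
    rw [sp, ← this]; rfl
  · right
    have : ofLex q = (loc q, true) := Prod.ext rfl h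
    rw [yp, ← this]; rfl

theorem q_lt {a b : Q} : a < b ↔ loc a < loc b ∨ (loc a = loc b ∧ kd a < kd b) :=
  Prod.Lex.lt_iff

theorem sp_lt_sp {p p' : Ps} : sp p < sp p' ↔ p < p' := by
  rw [q_lt]; simp

theorem sp_lt_yp {p p' : Ps} : sp p < yp p' ↔ p ≤ p' := by
  rw [q_lt]; simp [le_iff_lt_or_eq]

theorem yp_lt_yp {p p' : Ps} : yp p < yp p' ↔ p < p' := by
  rw [q_lt]; simp

theorem yp_lt_sp {p p' : Ps} : yp p < sp p' ↔ p < p' := by
  rw [q_lt]; simp

theorem sp_inj {p p' : Ps} (h : sp p = sp p') : p = p' := by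
  have := congrArg loc h
  simpa using this

theorem yp_inj {p p' : Ps} (h : yp p = yp p') : p = p' := by
  have := congrArg loc h
  simpa using this

theorem sp_ne_yp {p p' : Ps} : sp p ≠ yp p' := by
  intro h
  have := congrArg kd h
  simp at this

/-- the position of level `k` with address `a` above `k` -/
noncomputable def pos (k : ℕ) (a : ℕ →₀ ℤ) : Ps :=
  toColex (Finsupp.onFinset (insert k a.support)
    (fun m => if k < m then ((a m : ℤ) : WithBot ℤ) else if m = k then ⊥ else 0)
    (by
      intro m hm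
      by_cases h1 : k < m
      · simp only [h1, if_true] at hm
        refine Finset.mem_insert_of_mem ?_
        rw [Finsupp.mem_support_iff]
        intro h0
        apply hm
        rw [h0]
        rfl
      · simp only [h1, if_false] at hm
        by_cases h2 : m = k
        · subst h2
          exact Finset.mem_insert_self _ _
        · simp [h2] at hm))

theorem pos_gt {k m : ℕ} (a : ℕ →₀ ℤ) (h : k < m) :
    (ofColex (pos k a)) m = ((a m : ℤ) : WithBot ℤ) := by
  simp [pos, h]

theorem pos_self (k : ℕ) (a : ℕ →₀ ℤ) : (ofColex (pos k a)) k = ⊥ := by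
  simp [pos]

theorem pos_lt' {k m : ℕ} (a : ℕ →₀ ℤ) (h : m < k) : (ofColex (pos k a)) m = 0 := by
  have h1 : ¬ k < m := by omega
  have h2 : m ≠ k := by omega
  simp [pos, h1, h2]

theorem pos_congr {k : ℕ} {a b : ℕ →₀ ℤ} (h : ∀ m, k < m → a m = b m) : pos k a = pos k b := by
  have : (ofColex (pos k a) : ℕ →₀ WithBot ℤ) = ofColex (pos k b) := by
    ext1 m
    rcases lt_trichotomy k m with h1 | h1 | h1
    · rw [pos_gt a h1, pos_gt b h1, h m h1]
    · subst h1; rw [pos_self, pos_self]
    · rw [pos_lt' a h1, pos_lt' b h1]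
  exact ofColex.injective this

theorem pos_anti {k m : ℕ} (a : ℕ →₀ ℤ) (h : k < m) : pos m a < pos k a := by
  rw [ps_lt]
  refine ⟨m, fun j hj => ?_, ?_⟩
  · rw [pos_gt a hj, pos_gt a (h.trans hj)]
  · rw [pos_self, pos_gt a h]
    exact WithBot.bot_lt_coe _

theorem exists_zero_bound (w : Om) : ∃ B : ℕ, ∀ m, B ≤ m → val w (sp (pos m 0)) = 0 := by
  have hinj : Function.Injective (fun m : ℕ => sp (pos m 0)) := by
    intro m m' h
    have h' := sp_inj h
    by_contra hne
    rcases lt_or_gt_of_ne hne with h1 | h1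
    · exact absurd h' (pos_anti 0 h1).ne'
    · exact absurd h' (pos_anti 0 h1).ne
  have hfin : Set.Finite {m : ℕ | sp (pos m 0) ∈ ((ofLex w : Q →₀ ℤ).support : Set Q)} :=
    Set.Finite.preimage (hinj.injOn) (Finset.finite_toSet _)
  obtain ⟨B, hB⟩ := hfin.bddAbove
  refine ⟨B + 1, fun m hm => ?_⟩
  by_contra hne
  have : m ∈ {m : ℕ | sp (pos m 0) ∈ ((ofLex w : Q →₀ ℤ).support : Set Q)} := by
    simp only [Set.mem_ofPred_eq, Finset.mem_coe, Finsupp.mem_support_iff]
    exact hne
  have := hB this
  omega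

theorem exists_path_aux (w : Om) (B : ℕ) : ∀ a0 : ℕ →₀ ℤ, ∃ a : ℕ →₀ ℤ,
    (∀ m, B ≤ m → a m = a0 m) ∧ ∀ m, m < B → a m = val w (sp (pos m a)) := by
  induction B with
  | zero => exact fun a0 => ⟨a0, fun _ _ => rfl, fun m hm => absurd hm (Nat.not_lt_zero m)⟩
  | succ B ih =>
    intro a0
    obtain ⟨a, ha1, ha2⟩ := ih (a0.update B (val w (sp (pos B a0))))
    have hgt : ∀ m, B < m → a m = a0 m := by
      intro m hm
      rw [ha1 m hm.le, Finsupp.update_apply, if_neg (by omega)]
    refine ⟨a, fun m hm => hgt m (by omega), fun m hm => ?_⟩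
    rcases Nat.lt_or_ge m B with h | h
    · exact ha2 m h
    · have hmB : m = B := by omega
      subst hmB
      rw [ha1 m le_rfl, Finsupp.update_apply, if_pos rfl]
      rw [pos_congr (k := m) (a := a0) (b := a) (fun j hj => (hgt j hj).symm)]

theorem exists_path (w : Om) : ∃ a : ℕ →₀ ℤ, ∀ m, a m = val w (sp (pos m a)) := by
  obtain ⟨B, hB⟩ := exists_zero_bound w
  obtain ⟨a, h1, h2⟩ := exists_path_aux w B 0
  refine ⟨a, fun m => ?_⟩
  rcases Nat.lt_or_ge m B with h | h
  · exact h2 m h
  · rw [h1 m h, pos_congr (k := m) (a := a) (b := 0) (fun j hj => h1 j (by omega)), hB m h]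
    rfl

noncomputable def path (w : Om) : ℕ →₀ ℤ := Classical.choose (exists_path w)

theorem path_spec (w : Om) (m : ℕ) : path w m = val w (sp (pos m (path w))) :=
  Classical.choose_spec (exists_path w) m

theorem path_congr {k : ℕ} {w w' : Om}
    (h : ∀ m, k ≤ m → val w (sp (pos m (path w))) = val w' (sp (pos m (path w)))) :
    ∀ m, k ≤ m → path w' m = path w m := by
  -- a common bound
  obtain ⟨B, hB⟩ : ∃ B : ℕ, ∀ m, B ≤ m → path w' m = path w m := by
    obtain ⟨B, hB⟩ := ((path w').support ∪ (path w).support).bddAbove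
    refine ⟨B + 1, fun m hm => ?_⟩
    have hm' : m ∉ ((path w').support ∪ (path w).support) := by
      intro hmem
      have := hB (Finset.mem_coe.2 hmem)
      omega
    rw [Finset.mem_union, not_or, Finsupp.notMem_support_iff, Finsupp.notMem_support_iff] at hm'
    rw [hm'.1, hm'.2]
  have key : ∀ t m, k ≤ m → B ≤ m + t → path w' m = path w m := by
    intro t
    induction t with
    | zero => intro m _ hm; exact hB m (by omega)
    | succ t ih =>
      intro m hk hm
      have hp : pos m (path w') = pos m (path w) :=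
        pos_congr (fun j hj => ih j (by omega) (by omega))
      rw [path_spec w' m, hp, ← h m hk, ← path_spec w m]
  intro m hk
  exact key B m hk (by omega)

/-- agreement on the s-kind positions above `q` -/
def agree (q : Q) (w w' : Om) : Prop := ∀ p : Ps, sp p < q → val w (sp p) = val w' (sp p)

theorem agree.symm {q : Q} {w w' : Om} (h : agree q w w') : agree q w' w :=
  fun p hp => (h p hp).symm

theorem agree.mono {q r : Q} {w w' : Om} (h : agree q w w') (hr : r ≤ q) : agree r w w' :=
  fun p hp => h p (hp.trans_le hr)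

def PP (f : Om → Om) : Prop :=
  ∀ q w w', agree q w w' → val (f w) q - val w q = val (f w') q - val w' q

theorem pp_agree {f : Om → Om} (hf : PP f) {q : Q} {w w' : Om} (h : agree q w w') :
    agree q (f w) (f w') := by
  intro p hp
  have h1 := hf (sp p) w w' (h.mono hp.le)
  have h2 := h p hp
  omega

theorem pp_comp {f g : Om → Om} (hf : PP f) (hg : PP g) : PP (fun w => f (g w)) := by
  intro q w w' h
  have h1 := hg q w w' h
  have h2 := hf q (g w) (g w') (pp_agree hg h)
  simp only
  omega

theorem pp_strictMono {f : Om → Om} (hf : PP f) : StrictMono f := by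
  intro w w' h
  rw [om_lt] at h ⊢
  obtain ⟨q, hq1, hq2⟩ := h
  refine ⟨q, fun r hr => ?_, ?_⟩
  · have := hf r w w' (fun p hp => hq1 _ (hp.trans hr))
    have h2 := hq1 r hr
    omega
  · have := hf q w w' (fun p hp => hq1 _ hp)
    omega

theorem pp_cross {f g : Om → Om} (hf : PP f) (hg : PP g) {q : Q} {w w' : Om}
    (h : agree q w w') (h1 : f w ≤ g w) (h2 : g w' ≤ f w') : val (f w) q = val (g w) q := by
  rcases h1.eq_or_lt with h1 | h1
  · rw [h1]
  · rw [om_lt] at h1
    obtain ⟨r, hr1, hr2⟩ := h1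
    rcases le_or_gt r q with hrq | hrq
    · exfalso
      have : f w' < g w' := by
        rw [om_lt]
        refine ⟨r, fun s hs => ?_, ?_⟩
        · have e1 := hf s w w' (h.mono (hs.le.trans hrq))
          have e2 := hg s w w' (h.mono (hs.le.trans hrq))
          have e3 := hr1 s hs
          omega
        · have e1 := hf r w w' (h.mono hrq)
          have e2 := hg r w w' (h.mono hrq)
          omega
      exact absurd h2 (not_le.2 this)
    · exact hr1 q hrq

theorem pp_max {f g : Om → Om} (hf : PP f) (hg : PP g) : PP (fun w => max (f w) (g w)) := by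
  intro q w w' h
  simp only
  have ef := hf q w w' h
  have eg := hg q w w' h
  rcases le_total (f w) (g w) with h1 | h1 <;> rcases le_total (f w') (g w') with h2 | h2
  · rw [max_eq_right h1, max_eq_right h2]; exact eg
  · rw [max_eq_right h1, max_eq_left h2]
    have := pp_cross hf hg h h1 h2
    omega
  · rw [max_eq_left h1, max_eq_right h2]
    have := pp_cross hg hf h h1 h2
    omega
  · rw [max_eq_left h1, max_eq_left h2]; exact ef

theorem pp_min {f g : Om → Om} (hf : PP f) (hg : PP g) : PP (fun w => min (f w) (g w)) := by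
  intro q w w' h
  simp only
  have ef := hf q w w' h
  have eg := hg q w w' h
  rcases le_total (f w) (g w) with h1 | h1 <;> rcases le_total (f w') (g w') with h2 | h2
  · rw [min_eq_left h1, min_eq_left h2]; exact ef
  · rw [min_eq_left h1, min_eq_right h2]
    have := pp_cross hf hg h h1 h2
    omega
  · rw [min_eq_right h1, min_eq_left h2]
    have := pp_cross hg hf h h1 h2
    omega
  · rw [min_eq_right h1, min_eq_right h2]; exact eg

/-- `g` acts only at or below the canonical position of level `k` -/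
def Bd (k : ℕ) (g : Om → Om) : Prop :=
  ∀ w q, val (g w) q ≠ val w q → ∀ m, k < m → (ofColex (loc q)) m = ((path w m : ℤ) : WithBot ℤ)

theorem bd_mono {k l : ℕ} {g : Om → Om} (h : Bd k g) (hkl : k ≤ l) : Bd l g :=
  fun w q hq m hm => h w q hq m (by omega)

theorem bd_path {k : ℕ} {g : Om → Om} (h : Bd k g) (w : Om) :
    ∀ m, k < m → path (g w) m = path w m := by
  have := path_congr (k := k + 1) (w := w) (w' := g w) (fun m hm => by
    by_contra hne
    have h1 := h w (sp (pos m (path w))) (fun e => hne e.symm) m (by omega)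
    rw [loc_sp, pos_self] at h1
    exact absurd h1 (WithBot.bot_ne_coe))
  intro m hm
  exact this m (by omega)

theorem bd_comp {k : ℕ} {f g : Om → Om} (hf : Bd k f) (hg : Bd k g) :
    Bd k (fun w => f (g w)) := by
  intro w q hq m hm
  by_cases h : val (g w) q = val w q
  · have h' : val (f (g w)) q ≠ val (g w) q := by rw [h]; exact hq
    rw [hf (g w) q h' m hm, bd_path hg w m hm]
  · exact hg w q h m hm

theorem bd_inv {k : ℕ} {g : Equiv.Perm Om} (hg : Bd k g) : Bd k (g⁻¹ : Equiv.Perm Om) := by
  intro w q hq m hm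
  have e : g (g⁻¹ w) = w := g.apply_symm_apply w
  have h1 : val (g (g⁻¹ w)) q ≠ val (g⁻¹ w) q := by
    rw [e]
    exact fun h => hq h.symm
  have h2 := hg (g⁻¹ w) q h1 m hm
  have h3 := bd_path hg (g⁻¹ w) m hm
  rw [e] at h3
  rw [h2, ← h3]

theorem bd_max {k : ℕ} {f g : Om → Om} (hf : Bd k f) (hg : Bd k g) :
    Bd k (fun w => max (f w) (g w)) := by
  intro w q hq m hm
  simp only at hq
  rcases max_choice (f w) (g w) with h | h
  · rw [h] at hq; exact hf w q hq m hm
  · rw [h] at hq; exact hg w q hq m hm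

theorem bd_min {k : ℕ} {f g : Om → Om} (hf : Bd k f) (hg : Bd k g) :
    Bd k (fun w => min (f w) (g w)) := by
  intro w q hq m hm
  simp only at hq
  rcases min_choice (f w) (g w) with h | h
  · rw [h] at hq; exact hf w q hq m hm
  · rw [h] at hq; exact hg w q hq m hm

/-- the group -/
def GG : Subgroup (Equiv.Perm Om) where
  carrier := {g | PP g ∧ PP (g⁻¹ : Equiv.Perm Om) ∧ ∃ k, Bd k g}
  mul_mem' := by
    rintro f g ⟨hf1, hf2, k, hk⟩ ⟨hg1, hg2, l, hl⟩
    refine ⟨?_, ?_, max k l, ?_⟩
    · exact pp_comp (f := f) (g := g) hf1 hg1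
    · rw [mul_inv_rev]
      exact pp_comp (f := (g⁻¹ : Equiv.Perm Om)) (g := (f⁻¹ : Equiv.Perm Om)) hg2 hf2
    · exact bd_comp (f := f) (g := g) (bd_mono hk (le_max_left _ _))
        (bd_mono hl (le_max_right _ _))
  one_mem' := by
    refine ⟨fun q w w' _ => ?_, fun q w w' _ => ?_, 0, fun w q hq => ?_⟩
    · simp
    · simp
    · simp at hq
  inv_mem' := by
    rintro g ⟨hg1, hg2, k, hk⟩
    exact ⟨hg2, by rw [inv_inv]; exact hg1, k, bd_inv hk⟩

instance : CoeFun GG (fun _ => Om → Om) := ⟨fun g => (g.1 : Om → Om)⟩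

theorem gg_ext {f g : GG} (h : ∀ w, f w = g w) : f = g :=
  Subtype.ext (Equiv.ext h)

theorem gg_mul (f g : GG) (w : Om) : (f * g) w = f (g w) := rfl

theorem gg_one (w : Om) : (1 : GG) w = w := rfl

theorem gg_inv_apply (f : GG) (w : Om) : f⁻¹ (f w) = w := by
  rw [← gg_mul, inv_mul_cancel]; rfl

theorem gg_apply_inv (f : GG) (w : Om) : f (f⁻¹ w) = w := by
  rw [← gg_mul, mul_inv_cancel]; rfl

theorem gg_mono (f : GG) {w w' : Om} (h : w ≤ w') : f w ≤ f w' :=
  (pp_strictMono f.2.1).monotone h

noncomputable def gsup (f g : GG) : GG :=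
  ⟨{ toFun := fun w => max (f w) (g w)
     invFun := fun w => min (f⁻¹ w) (g⁻¹ w)
     left_inv := by
       intro w
       simp only
       rcases le_total (f w) (g w) with h | h
       · rw [max_eq_right h, gg_inv_apply, min_eq_right]
         have := gg_mono f⁻¹ h
         rwa [gg_inv_apply] at this
       · rw [max_eq_left h, gg_inv_apply, min_eq_left]
         have := gg_mono g⁻¹ h
         rwa [gg_inv_apply] at this
     right_inv := by
       intro w
       simp only
       rcases le_total (f⁻¹ w) (g⁻¹ w) with h | h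
       · rw [min_eq_left h, gg_apply_inv, max_eq_left]
         have := gg_mono g h
         rwa [gg_apply_inv] at this
       · rw [min_eq_right h, gg_apply_inv, max_eq_right]
         have := gg_mono f h
         rwa [gg_apply_inv] at this },
    by
      obtain ⟨f, hf1, hf2, k, hk⟩ := f
      obtain ⟨g, hg1, hg2, l, hl⟩ := g
      exact ⟨pp_max hf1 hg1, pp_min hf2 hg2, max k l,
        bd_max (bd_mono hk (le_max_left _ _)) (bd_mono hl (le_max_right _ _))⟩⟩

noncomputable instance : PartialOrder GG :=
  PartialOrder.lift (fun f : GG => (f : Om → Om)) (fun _ _ h => gg_ext (fun w => congrFun h w))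

theorem gg_le {f g : GG} : f ≤ g ↔ ∀ w, f w ≤ g w := Iff.rfl

theorem gsup_apply (f g : GG) (w : Om) : gsup f g w = max (f w) (g w) := rfl

noncomputable def ginf (f g : GG) : GG := (gsup f⁻¹ g⁻¹)⁻¹

theorem ginf_apply (f g : GG) (w : Om) : ginf f g w = min (f w) (g w) := by
  change min ((f⁻¹)⁻¹ w) ((g⁻¹)⁻¹ w) = _
  rw [inv_inv, inv_inv]

noncomputable instance : Lattice GG where
  sup := gsup
  inf := ginf
  le_sup_left f g := fun w => le_max_left _ _
  le_sup_right f g := fun w => le_max_right _ _
  sup_le f g h h1 h2 := fun w => max_le (h1 w) (h2 w)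
  inf_le_left f g := fun w => by
    change ginf f g w ≤ f w
    rw [ginf_apply]; exact min_le_left _ _
  inf_le_right f g := fun w => by
    change ginf f g w ≤ g w
    rw [ginf_apply]; exact min_le_right _ _
  le_inf f g h h1 h2 := fun w => by
    change f w ≤ ginf g h w
    rw [ginf_apply]; exact le_min (h1 w) (h2 w)

theorem gg_sup (f g : GG) (w : Om) : (f ⊔ g) w = max (f w) (g w) := rfl

instance : MulLeftMono GG := ⟨fun h _ _ hfg w => gg_mono h (hfg w)⟩

instance : MulRightMono GG := ⟨fun h _ _ hfg w => hfg (h w)⟩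

/-- a configuration supported at one position -/
noncomputable def sg (q : Q) (c : ℤ) : Om := toLex (Finsupp.single q c)

theorem val_sg (q : Q) (c : ℤ) (r : Q) : val (sg q c) r = if q = r then c else 0 := by
  unfold val sg
  exact Finsupp.single_apply

theorem val_sg_self (q : Q) (c : ℤ) : val (sg q c) q = c := by
  rw [val_sg, if_pos rfl]

theorem val_sg_ne {q r : Q} (c : ℤ) (h : q ≠ r) : val (sg q c) r = 0 := by
  rw [val_sg, if_neg h]

/-- the data of an elementary automorphism: add `c w` at position `e w` -/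
structure Elem where
  e : Om → Q
  c : Om → ℤ
  stable : ∀ w w', c w ≠ 0 → agree (e w) w w' → e w' = e w ∧ c w' = c w
  k : ℕ
  bd : ∀ w, c w ≠ 0 → ∀ m, k < m → (ofColex (loc (e w))) m = ((path w m : ℤ) : WithBot ℤ)

namespace Elem

variable (E : Elem)

noncomputable def D (w : Om) : Om := sg (E.e w) (E.c w)

theorem D_eq_zero {w : Om} (h : E.c w = 0) : E.D w = 0 := by
  apply om_ext
  intro q
  rw [D, val_sg, val_zero, h]
  simp

theorem agree_of {w v : Om} (h : ∀ r, r ≠ E.e w → val v r = val w r) : agree (E.e w) w v := by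
  intro p hp
  exact (h (sp p) hp.ne).symm

theorem D_congr {w v : Om} (hc : E.c w ≠ 0) (h : agree (E.e w) w v) : E.D v = E.D w := by
  obtain ⟨h1, h2⟩ := E.stable w v hc h
  rw [D, D, h1, h2]

theorem D_add (w : Om) : E.D (w + E.D w) = E.D w := by
  by_cases hc : E.c w = 0
  · rw [E.D_eq_zero hc, add_zero, E.D_eq_zero hc]
  · apply E.D_congr hc
    apply E.agree_of
    intro r hr
    rw [val_add, D, val_sg_ne _ hr.symm, add_zero]

theorem D_sub (w : Om) : E.D (w - E.D w) = E.D w := by
  by_cases hc : E.c w = 0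
  · rw [E.D_eq_zero hc, sub_zero, E.D_eq_zero hc]
  · apply E.D_congr hc
    apply E.agree_of
    intro r hr
    rw [val_sub, D, val_sg_ne _ hr.symm, sub_zero]

theorem D_val {q : Q} {w w' : Om} (h : agree q w w') (hne : val (E.D w) q ≠ 0) :
    val (E.D w') q = val (E.D w) q := by
  have hq : E.e w = q := by
    by_contra hne'
    exact hne (val_sg_ne _ hne')
  have hc : E.c w ≠ 0 := by
    intro h0
    rw [E.D_eq_zero h0, val_zero] at hne
    exact hne rfl
  subst hq
  rw [E.D_congr hc h]

theorem D_pp (q : Q) (w w' : Om) (h : agree q w w') : val (E.D w) q = val (E.D w') q := by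
  by_cases h1 : val (E.D w) q = 0
  · by_cases h2 : val (E.D w') q = 0
    · rw [h1, h2]
    · exact E.D_val h.symm h2
  · exact (E.D_val h h1).symm

noncomputable def perm : Equiv.Perm Om where
  toFun w := w + E.D w
  invFun w := w - E.D w
  left_inv w := by
    simp only
    rw [E.D_add, add_sub_cancel_right]
  right_inv w := by
    simp only
    rw [E.D_sub, sub_add_cancel]

theorem perm_apply (w : Om) : E.perm w = w + E.D w := rfl

theorem perm_inv_apply (w : Om) : (E.perm⁻¹ : Equiv.Perm Om) w = w - E.D w := rfl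

noncomputable def toGG : GG :=
  ⟨E.perm, by
    refine ⟨fun q w w' h => ?_, fun q w w' h => ?_, E.k, fun w q hq => ?_⟩
    · rw [perm_apply, perm_apply, val_add, val_add, E.D_pp q w w' h]; ring
    · rw [perm_inv_apply, perm_inv_apply, val_sub, val_sub, E.D_pp q w w' h]; ring
    · rw [perm_apply, val_add] at hq
      have h1 : val (E.D w) q ≠ 0 := by omega
      have hq' : E.e w = q := by
        by_contra hne'
        exact h1 (val_sg_ne _ hne')
      have hc : E.c w ≠ 0 := by
        intro h0
        rw [E.D_eq_zero h0, val_zero] at h1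
        exact h1 rfl
      subst hq'
      exact E.bd w hc⟩

theorem toGG_apply (w : Om) : E.toGG w = w + E.D w := rfl

theorem toGG_inv_apply (w : Om) : E.toGG⁻¹ w = w - E.D w := rfl

end Elem

theorem pos_path_congr {k : ℕ} {w w' : Om}
    (h : ∀ m, k < m → val w (sp (pos m (path w))) = val w' (sp (pos m (path w)))) :
    pos k (path w') = pos k (path w) := by
  apply pos_congr
  intro m hm
  exact path_congr (k := k + 1) (fun m hm => h m (by omega)) m (by omega)

/-- shift of the s-value at the canonical position of level `k` -/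
noncomputable def xE (k : ℕ) : Elem where
  e w := sp (pos k (path w))
  c _ := 1
  stable w w' _ h := by
    refine ⟨?_, rfl⟩
    rw [pos_path_congr]
    intro m hm
    exact h _ (sp_lt_sp.2 (pos_anti _ hm))
  k := k
  bd w _ m hm := by
    rw [loc_sp, pos_gt _ hm]

/-- shift of the y-value at the canonical position of level 0 -/
noncomputable def uE : Elem where
  e w := yp (pos 0 (path w))
  c _ := 1
  stable w w' _ h := by
    refine ⟨?_, rfl⟩
    rw [pos_path_congr]
    intro m hm
    exact h _ (sp_lt_yp.2 (pos_anti _ hm).le)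
  k := 0
  bd w _ m hm := by
    rw [loc_yp, pos_gt _ hm]

def eps (z : ℤ) : ℤ := if z % 2 = 0 then 1 else -1

theorem eps_add (a b : ℤ) : eps (a + b) = eps a * eps b := by
  unfold eps
  rcases Int.emod_two_eq_zero_or_one a with ha | ha <;>
  rcases Int.emod_two_eq_zero_or_one b with hb | hb
  · rw [if_pos (by omega), if_pos ha, if_pos hb]; norm_num
  · rw [if_neg (by omega), if_pos ha, if_neg (by omega)]; norm_num
  · rw [if_neg (by omega), if_neg (by omega), if_pos hb]; norm_num
  · rw [if_pos (by omega), if_neg (by omega), if_neg (by omega)]; norm_num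

theorem eps_cases (a : ℤ) : eps a = 1 ∨ eps a = -1 := by
  unfold eps; split_ifs <;> simp

theorem eps_succ (a : ℤ) : eps (a + 1) = - eps a := by
  rw [eps_add]; simp [eps]

/-- the y-value at level 0 moves by the parity of the s-value at level 0 -/
noncomputable def nE : Elem where
  e w := yp (pos 0 (path w))
  c w := eps (path w 0)
  stable w w' _ h := by
    have h0 : ∀ m, 0 ≤ m → val w (sp (pos m (path w))) = val w' (sp (pos m (path w))) := by
      intro m hm
      refine h _ (sp_lt_yp.2 ?_)
      rcases Nat.eq_zero_or_pos m with h1 | h1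
      · subst h1; exact le_rfl
      · exact (pos_anti _ h1).le
    have h1 := path_congr (k := 0) h0
    refine ⟨?_, ?_⟩
    · rw [pos_congr (fun m _ => h1 m (Nat.zero_le m))]
    · rw [h1 0 le_rfl]
  k := 0
  bd w _ m hm := by
    rw [loc_yp, pos_gt _ hm]

noncomputable def xx (k : ℕ) : GG := (xE k).toGG
noncomputable def uu : GG := uE.toGG
noncomputable def nn : GG := nE.toGG

theorem uu_le : uu ≤ nn ⊔ nn⁻¹ := by
  refine gg_le.2 fun w => ?_
  rw [gg_sup]
  have h1 : uu w = w + sg (yp (pos 0 (path w))) 1 := rfl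
  have h2 : nn w = w + sg (yp (pos 0 (path w))) (eps (path w 0)) := rfl
  have h3 : nn⁻¹ w = w - sg (yp (pos 0 (path w))) (eps (path w 0)) := rfl
  rcases eps_cases (path w 0) with h | h
  · rw [h1, h2, h]
    exact le_max_left _ _
  · rw [h1, h3, h]
    refine le_trans (le_of_eq ?_) (le_max_right _ _)
    apply om_ext
    intro q
    rw [val_add, val_sub, val_sg, val_sg]
    split_ifs <;> ring

theorem nn_ne_one : nn ≠ 1 := by
  intro h
  have h1 : nn (0 : Om) = (1 : GG) (0 : Om) := by rw [h]
  have h2 : nn (0 : Om) = (0 : Om) + sg (yp (pos 0 (path 0))) (eps (path 0 0)) := rfl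
  rw [gg_one, h2] at h1
  have h3 := congrArg (fun w => val w (yp (pos 0 (path 0)))) h1
  simp only [val_add, val_zero, val_sg_self] at h3
  rcases eps_cases (path 0 0) with h | h <;> rw [h] at h3 <;> simp at h3

/-- every element is below a conjugate of `uu` -/
theorem le_conj (g : GG) : ∃ x : GG, g ≤ x * uu * x⁻¹ := by
  obtain ⟨k, hk⟩ := g.2.2.2
  refine ⟨xx (k + 1), gg_le.2 fun w => ?_⟩
  set w1 : Om := w - sg (sp (pos (k + 1) (path w))) 1 with hw1
  set w2 : Om := w1 + sg (yp (pos 0 (path w1))) 1 with hw2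
  have e1 : (xx (k + 1) * uu * (xx (k + 1))⁻¹) w = w2 + sg (sp (pos (k + 1) (path w2))) 1 := rfl
  -- path of w1
  have p1 : ∀ m, k + 2 ≤ m → path w1 m = path w m := by
    apply path_congr
    intro m hm
    rw [hw1, val_sub, val_sg_ne, sub_zero]
    intro h
    exact absurd (sp_inj h) (pos_anti _ (by omega : k + 1 < m)).ne'
  have q1 : pos (k + 1) (path w1) = pos (k + 1) (path w) :=
    pos_congr (fun m hm => p1 m (by omega))
  have p1' : path w1 (k + 1) = path w (k + 1) - 1 := by
    rw [path_spec w1, q1, hw1, val_sub, val_sg_self, ← path_spec w]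
  have q2 : pos (k + 1) (path w2) = pos (k + 1) (path w1) := by
    apply pos_path_congr
    intro m hm
    rw [hw2, val_add, val_sg_ne, add_zero]
    exact fun h => sp_ne_yp h.symm
  have e2 : (xx (k + 1) * uu * (xx (k + 1))⁻¹) w = w + sg (yp (pos 0 (path w1))) 1 := by
    rw [e1, q2, q1, hw2, hw1]
    abel
  rw [e2]
  apply le_of_lt
  rw [om_lt]
  have hY : ∀ r, val (g w) r ≠ val w r → yp (pos 0 (path w1)) < r := by
    intro r hr
    have h1 := hk w r hr
    rw [q_lt]
    left
    rw [loc_yp, ps_lt]
    refine ⟨k + 1, fun j hj => ?_, ?_⟩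
    · rw [pos_gt _ (by omega), h1 j (by omega), p1 j (by omega)]
    · rw [pos_gt _ (by omega), h1 (k + 1) (by omega), p1', WithBot.coe_lt_coe]
      omega
  refine ⟨yp (pos 0 (path w1)), fun r hr => ?_, ?_⟩
  · rw [val_add, val_sg_ne _ hr.ne', add_zero]
    by_contra hne
    exact absurd (hY r hne) (not_lt.2 hr.le)
  · rw [val_add, val_sg_self]
    have : val (g w) (yp (pos 0 (path w1))) = val w (yp (pos 0 (path w1))) := by
      by_contra hne
      exact lt_irrefl _ (hY _ hne)
    omega

/-- the normal subgroup: acts only on y-values, in an antisymmetric way -/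
def NN : Subgroup GG where
  carrier := {n | (∀ w p, val (n w) (sp p) = val w (sp p)) ∧
    ∀ p w w', agree (sp p) w w' →
      eps (val w (sp p)) * (val (n w) (yp p) - val w (yp p)) =
      eps (val w' (sp p)) * (val (n w') (yp p) - val w' (yp p))}
  mul_mem' := by
    rintro a b ⟨ha1, ha2⟩ ⟨hb1, hb2⟩
    refine ⟨fun w p => ?_, fun p w w' h => ?_⟩
    · rw [gg_mul, ha1, hb1]
    · have e1 := hb2 p w w' h
      have e2 := ha2 p (b w) (b w') (fun p' hp' => by rw [hb1, hb1]; exact h p' hp')
      rw [hb1, hb1] at e2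
      rw [gg_mul, gg_mul]
      linear_combination e1 + e2
  one_mem' := by
    refine ⟨fun w p => ?_, fun p w w' h => ?_⟩
    · rw [gg_one]
    · rw [gg_one, gg_one]; ring
  inv_mem' := by
    rintro a ⟨ha1, ha2⟩
    have ha1' : ∀ w p, val (a⁻¹ w) (sp p) = val w (sp p) := by
      intro w p
      have := ha1 (a⁻¹ w) p
      rw [gg_apply_inv] at this
      exact this.symm
    refine ⟨ha1', fun p w w' h => ?_⟩
    have e2 := ha2 p (a⁻¹ w) (a⁻¹ w') (fun p' hp' => by rw [ha1', ha1']; exact h p' hp')
    rw [ha1', ha1', gg_apply_inv, gg_apply_inv] at e2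
    linear_combination -e2

theorem nn_mem : nn ∈ NN := by
  have h2 : ∀ w, nn w = w + sg (yp (pos 0 (path w))) (eps (path w 0)) := fun _ => rfl
  refine ⟨fun w p => ?_, fun p w w' h => ?_⟩
  · rw [h2, val_add, val_sg_ne, add_zero]
    exact fun h => sp_ne_yp h.symm
  · have key : ∀ v v', agree (sp p) v v' → pos 0 (path v) = p → pos 0 (path v') = p := by
      intro v v' hv hp
      rw [← hp]
      apply pos_path_congr
      intro m hm
      refine hv _ (sp_lt_sp.2 ?_)
      rw [← hp]
      exact pos_anti _ hm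
    have key2 : ∀ v, pos 0 (path v) = p →
        eps (val v (sp p)) * (val (nn v) (yp p) - val v (yp p)) = 1 := by
      intro v hp
      rw [h2, hp, val_add, val_sg_self, path_spec v 0, hp]
      rcases eps_cases (val v (sp p)) with h | h <;> rw [h] <;> ring
    have key3 : ∀ v, pos 0 (path v) ≠ p →
        eps (val v (sp p)) * (val (nn v) (yp p) - val v (yp p)) = 0 := by
      intro v hp
      rw [h2, val_add, val_sg_ne]
      · ring
      · intro h; exact hp (yp_inj h)
    by_cases hp : pos 0 (path w) = p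
    · rw [key2 w hp, key2 w' (key w w' h hp)]
    · rw [key3 w hp, key3 w' (fun h' => hp (key w' w h.symm h'))]

theorem NN_normal : NN.Normal := by
  refine ⟨fun n hn g => ?_⟩
  obtain ⟨hn1, hn2⟩ := hn
  have hg := g.2.1
  have hg' := g.2.2.1
  -- displacement of the conjugate
  have hs : ∀ w p, val ((g * n * g⁻¹) w) (sp p) = val w (sp p) := by
    intro w p
    rw [gg_mul, gg_mul]
    have h1 := hg (sp p) (n (g⁻¹ w)) (g⁻¹ w) (fun p' _ => hn1 _ _)
    have h2 := hn1 (g⁻¹ w) p
    have h3 : (g : Om → Om) (g⁻¹ w) = w := gg_apply_inv g w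
    rw [h3] at h1
    omega
  have hy : ∀ w p, val ((g * n * g⁻¹) w) (yp p) - val w (yp p) =
      val (n (g⁻¹ w)) (yp p) - val (g⁻¹ w) (yp p) := by
    intro w p
    rw [gg_mul, gg_mul]
    have h1 := hg (yp p) (n (g⁻¹ w)) (g⁻¹ w) (fun p' _ => hn1 _ _)
    have h3 : (g : Om → Om) (g⁻¹ w) = w := gg_apply_inv g w
    rw [h3] at h1
    omega
  refine ⟨hs, fun p w w' h => ?_⟩
  rw [hy, hy]
  have hag : agree (sp p) (g⁻¹ w) (g⁻¹ w') := pp_agree hg' h
  have e1 := hn2 p _ _ hag
  have e2 := hg (sp p) (g⁻¹ w) (g⁻¹ w') hag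
  have h3 : (g : Om → Om) (g⁻¹ w) = w := gg_apply_inv g w
  have h3' : (g : Om → Om) (g⁻¹ w') = w' := gg_apply_inv g w'
  rw [h3, h3'] at e2
  obtain ⟨t, ht⟩ : ∃ t, val w (sp p) = val (g⁻¹ w) (sp p) + t := ⟨_, (add_sub_cancel _ _).symm⟩
  have ht' : val w' (sp p) = val (g⁻¹ w') (sp p) + t := by omega
  rw [ht, ht', eps_add, eps_add]
  linear_combination (eps t) * e1

/-- `q` is the top position where `v` and `w` differ -/
def IsTop (v w : Om) (q : Q) : Prop := (∀ r, r < q → val v r = val w r) ∧ val v q ≠ val w q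

theorem exists_top {v w : Om} (h : v ≠ w) : ∃ q, IsTop v w q := by
  rcases lt_or_gt_of_ne h with h1 | h1
  · obtain ⟨q, h2, h3⟩ := om_lt.1 h1
    exact ⟨q, h2, h3.ne⟩
  · obtain ⟨q, h2, h3⟩ := om_lt.1 h1
    exact ⟨q, fun r hr => (h2 r hr).symm, h3.ne'⟩

theorem top_unique {v w : Om} {q q' : Q} (h : IsTop v w q) (h' : IsTop v w q') : q = q' := by
  rcases lt_trichotomy q q' with h1 | h1 | h1
  · exact absurd (h'.1 q h1) h.2
  · exact h1
  · exact absurd (h.1 q' h1) h'.2

open Classical in
/-- position of the parity flip attached to `n` -/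
noncomputable def tpos (n : GG) (w : Om) : Q :=
  if h : n w ≠ w then sp (loc (Classical.choose (exists_top h))) else sp 0

theorem tpos_eq {n : GG} {w : Om} {q : Q} (h : IsTop (n w) w q) : tpos n w = sp (loc q) := by
  have hne : n w ≠ w := fun e => h.2 (by rw [e])
  rw [tpos, dif_pos hne]
  rw [top_unique (Classical.choose_spec (exists_top hne)) h]

theorem top_is_y {n : GG} (hn : n ∈ NN) {w : Om} {q : Q} (h : IsTop (n w) w q) :
    q = yp (loc q) := by
  rcases q_cases q with h1 | h1
  · exfalso
    apply h.2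
    rw [h1]
    exact hn.1 w _
  · exact h1

/-- displacement of elements of `NN` depends only on s-values -/
theorem disp_congr (g : GG) {q : Q} {w w' : Om} (h : agree q w w') :
    val (g w) q - val w q = val (g w') q - val w' q := g.2.1 q w w' h

theorem top_stable {n : GG} (hn : n ∈ NN) {w w' : Om} {p : Ps} (h : IsTop (n w) w (yp p))
    (ha : agree (sp p) w w') : IsTop (n w') w' (yp p) := by
  refine ⟨fun r hr => ?_, ?_⟩
  · rcases q_cases r with h1 | h1
    · rw [h1]; exact hn.1 w' _
    · have hlt : loc r < p := by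
        rw [h1] at hr; exact yp_lt_yp.1 hr
      have hag : agree r w w' := ha.mono (by
        rw [h1]; exact (yp_lt_sp.2 hlt).le)
      have := disp_congr n hag
      have h2 := h.1 r hr
      omega
  · have e := hn.2 p w w' ha
    intro h0
    rw [h0, sub_self, mul_zero] at e
    have h2 := h.2
    rcases mul_eq_zero.1 e with h3 | h3
    · rcases eps_cases (val w (sp p)) with h4 | h4 <;> rw [h4] at h3 <;> simp at h3
    · exact h2 (sub_eq_zero.1 h3)

open Classical in
noncomputable def tE (n : GG) (hn : n ∈ NN) : Elem where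
  e w := tpos n w
  c w := if n w ≠ w then 1 else 0
  stable w w' hc h := by
    have hne : n w ≠ w := by
      by_contra h0
      rw [if_neg (not_not.2 h0)] at hc
      exact hc rfl
    obtain ⟨q, hq⟩ := exists_top hne
    have hy := top_is_y hn hq
    rw [tpos_eq hq] at h
    rw [hy] at hq
    have ht := top_stable hn hq h
    have hne' : n w' ≠ w' := fun e => ht.2 (by rw [e])
    rw [tpos_eq hq, tpos_eq ht, if_pos hne, if_pos hne']
    exact ⟨rfl, rfl⟩
  k := Classical.choose n.2.2.2
  bd w hc m hm := by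
    have hne : n w ≠ w := by
      by_contra h0
      rw [if_neg (not_not.2 h0)] at hc
      exact hc rfl
    obtain ⟨q, hq⟩ := exists_top hne
    rw [tpos_eq hq, loc_sp]
    exact Classical.choose_spec n.2.2.2 w q hq.2 m hm

noncomputable def tt (n : GG) (hn : n ∈ NN) : GG := (tE n hn).toGG

theorem tE_D {n : GG} (hn : n ∈ NN) {w : Om} {p : Ps} (h : IsTop (n w) w (yp p)) :
    (tE n hn).D w = sg (sp p) 1 := by
  have hne : n w ≠ w := fun e => h.2 (by rw [e])
  have h1 : (tE n hn).c w = 1 := if_pos hne
  have h2 : (tE n hn).e w = tpos n w := rfl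
  rw [Elem.D, h1, h2, tpos_eq h, loc_yp]

theorem balanced (n : GG) (hn : n ∈ NN) :
    n⁻¹ ≤ (tt n hn)⁻¹ * (n ⊔ 1) * (tt n hn) * ((tt n hn)⁻¹ * (n ⊔ 1) * (tt n hn)) := by
  refine gg_le.2 fun w => ?_
  set T := tt n hn with hT
  have hpos : ∀ v : Om, v ≤ (T⁻¹ * (n ⊔ 1) * T) v := by
    intro v
    have h1 : (1 : GG) ≤ T⁻¹ * (n ⊔ 1) * T := by
      have : (1 : GG) ≤ n ⊔ 1 := le_sup_right
      calc (1 : GG) = T⁻¹ * 1 * T := by group
        _ ≤ T⁻¹ * (n ⊔ 1) * T := mul_le_mul_left (mul_le_mul_right this _) _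
    exact gg_le.1 h1 v
  rcases le_or_gt (n⁻¹ w) w with hle | hlt
  · exact hle.trans ((hpos w).trans (hpos _))
  -- main case
  have hninv : n⁻¹ ∈ NN := NN.inv_mem hn
  have hdisp : ∀ r, val (n⁻¹ w) r - val w r = - (val (n w) r - val w r) := by
    intro r
    have h1 := disp_congr n (q := r) (w := n⁻¹ w) (w' := w) (fun p _ => hninv.1 w p)
    have h2 : (n : Om → Om) (n⁻¹ w) = w := gg_apply_inv n w
    rw [h2] at h1
    omega
  obtain ⟨q, hq1, hq2⟩ := om_lt.1 hlt
  have htop : IsTop (n w) w q := by
    refine ⟨fun r hr => ?_, ?_⟩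
    · have h1 := hq1 r hr
      have h2 := hdisp r
      omega
    · have h2 := hdisp q
      omega
  obtain ⟨p, hp⟩ : ∃ p, q = yp p := ⟨_, top_is_y hn htop⟩
  subst hp
  set w' : Om := w + sg (sp p) 1 with hw'
  -- any configuration with the s-values of `w`
  have key : ∀ v : Om, (∀ p', val v (sp p') = val w (sp p')) →
      ∀ r, val ((T⁻¹ * (n ⊔ 1) * T) v) r = val v r + (val (n w') r - val w' r) := by
    intro v hv r
    have htv : IsTop (n v) v (yp p) := top_stable hn htop (fun p' _ => (hv p').symm)
    have hTv : T v = v + sg (sp p) 1 := by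
      rw [hT]
      change v + (tE n hn).D v = _
      rw [tE_D hn htv]
    set v' : Om := v + sg (sp p) 1 with hv'
    have hsv : ∀ p', val v' (sp p') = val w' (sp p') := by
      intro p'
      rw [hv', hw', val_add, val_add, hv p']
    have hag : agree (sp p) v v' := by
      intro p' hp'
      rw [hv', val_add, val_sg_ne _ hp'.ne', add_zero]
    have htv' : IsTop (n v') v' (yp p) := top_stable hn htv hag
    have hsign : val v' (yp p) < val (n v') (yp p) := by
      have e := hn.2 p v v' hag
      have e1 : val v' (sp p) = val v (sp p) + 1 := by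
        rw [hv', val_add, val_sg_self]
      rw [e1, eps_succ] at e
      have e2 : val (n v) (yp p) - val v (yp p) = val (n w) (yp p) - val w (yp p) :=
        disp_congr n (fun p' _ => hv p')
      have e3 := hdisp (yp p)
      rcases eps_cases (val v (sp p)) with h | h <;> rw [h] at e <;> omega
    have hlt' : v' < n v' := by
      rw [om_lt]
      exact ⟨yp p, fun r hr => (htv'.1 r hr).symm, hsign⟩
    have hsup : (n ⊔ 1) v' = n v' := by
      rw [gg_sup, gg_one]
      exact max_eq_left hlt'.le
    have hTinv : T⁻¹ (n v') = n v' - sg (sp p) 1 := by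
      rw [hT]
      change n v' - (tE n hn).D (n v') = _
      have : IsTop (n (n v')) (n v') (yp p) :=
        top_stable hn htv' (fun p' _ => (hn.1 v' p').symm)
      rw [tE_D hn this]
    rw [gg_mul, gg_mul, hTv, hsup, hTinv, val_sub]
    have e4 : val (n v') r - val v' r = val (n w') r - val w' r :=
      disp_congr n (fun p' _ => hsv p')
    have e5 : val v' r = val v r + val (sg (sp p) 1) r := by rw [hv', val_add]
    omega
  have hag : agree (sp p) w w' := by
    intro p' hp'
    rw [hw', val_add, val_sg_ne _ hp'.ne', add_zero]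
  have htw' : IsTop (n w') w' (yp p) := top_stable hn htop hag
  have hsw : val (n w') (yp p) - val w' (yp p) = - (val (n w) (yp p) - val w (yp p)) := by
    have e := hn.2 p w w' hag
    have e1 : val w' (sp p) = val w (sp p) + 1 := by
      rw [hw', val_add, val_sg_self]
    rw [e1, eps_succ] at e
    rcases eps_cases (val w (sp p)) with h | h <;> rw [h] at e <;> omega
  have k1 := key w (fun _ => rfl)
  have k2 := key ((T⁻¹ * (n ⊔ 1) * T) w) (fun p' => by
    rw [k1]
    have := hn.1 w' p'
    omega)
  apply le_of_lt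
  rw [gg_mul, om_lt]
  refine ⟨yp p, fun r hr => ?_, ?_⟩
  · rw [k2, k1]
    have e1 := hq1 r hr
    have e2 := htw'.1 r hr
    omega
  · rw [k2, k1]
    have e3 := hdisp (yp p)
    omega

theorem one_le_uu : (1 : GG) ≤ uu := by
  refine gg_le.2 fun w => ?_
  have h1 : uu w = w + sg (yp (pos 0 (path w))) 1 := rfl
  rw [h1, gg_one]
  apply le_of_lt
  rw [om_lt]
  refine ⟨yp (pos 0 (path w)), fun r hr => ?_, ?_⟩
  · rw [val_add, val_sg_ne _ hr.ne', add_zero]
  · rw [val_add, val_sg_self]; omega

end Pool.Agent.MP_918b6a_al
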