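import Mathlib

set_option autoImplicit false

namespace Pool.Agent.MP_918b6a_al

section

variable {G : Type} [Group G] [Lattice G] [MulLeftMono G] [MulRightMono G]

/-- normal convex sublattice subgroups -/
def IsLIdeal (H : Subgroup G) : Prop :=
  H.Normal ∧ (∀ a b g : G, a ∈ H → b ∈ H → a ≤ g → g ≤ b → g ∈ H) ∧
    (∀ a b : G, a ∈ H → b ∈ H → a ⊔ b ∈ H ∧ a ⊓ b ∈ H)

variable (M : Subgroup G)

theorem lideal_sup (hM : IsLIdeal M) {a a' b b' : G} (h1 : a⁻¹ * a' ∈ M) (h2 : b⁻¹ * b' ∈ M) :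
    (a ⊔ b)⁻¹ * (a' ⊔ b') ∈ M := by
  obtain ⟨_, hconv, hlat⟩ := hM
  have up : ∀ {a a' b b' : G}, a⁻¹ * a' ∈ M → b⁻¹ * b' ∈ M →
      ∃ m ∈ M, (a ⊔ b)⁻¹ * (a' ⊔ b') ≤ m := by
    intro a a' b b' h1 h2
    refine ⟨a⁻¹ * a' ⊔ b⁻¹ * b', (hlat _ _ h1 h2).1, ?_⟩
    rw [inv_mul_le_iff_le_mul]
    apply sup_le
    · calc a' = a * (a⁻¹ * a') := by group
        _ ≤ (a ⊔ b) * (a⁻¹ * a') := mul_le_mul_left le_sup_left _
        _ ≤ _ := mul_le_mul_right le_sup_left _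
    · calc b' = b * (b⁻¹ * b') := by group
        _ ≤ (a ⊔ b) * (b⁻¹ * b') := mul_le_mul_left le_sup_right _
        _ ≤ _ := mul_le_mul_right le_sup_right _
  have inv : ∀ {a a' : G}, a⁻¹ * a' ∈ M → a'⁻¹ * a ∈ M := by
    intro a a' h
    have := M.inv_mem h
    rwa [mul_inv_rev, inv_inv] at this
  obtain ⟨m, hm, hm'⟩ := up h1 h2
  obtain ⟨l, hl, hl'⟩ := up (inv h1) (inv h2)
  refine hconv l⁻¹ m _ (M.inv_mem hl) hm ?_ hm'
  rw [inv_le', mul_inv_rev, inv_inv]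
  exact hl'

theorem lideal_inf (hM : IsLIdeal M) {a a' b b' : G} (h1 : a⁻¹ * a' ∈ M) (h2 : b⁻¹ * b' ∈ M) :
    (a ⊓ b)⁻¹ * (a' ⊓ b') ∈ M := by
  obtain ⟨_, hconv, hlat⟩ := hM
  have dn : ∀ {a a' b b' : G}, a⁻¹ * a' ∈ M → b⁻¹ * b' ∈ M →
      ∃ m ∈ M, m ≤ (a ⊓ b)⁻¹ * (a' ⊓ b') := by
    intro a a' b b' h1 h2
    refine ⟨a⁻¹ * a' ⊓ b⁻¹ * b', (hlat _ _ h1 h2).2, ?_⟩
    rw [le_inv_mul_iff_mul_le]
    apply le_inf
    · calc (a ⊓ b) * (a⁻¹ * a' ⊓ b⁻¹ * b') ≤ (a ⊓ b) * (a⁻¹ * a') :=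
            mul_le_mul_right inf_le_left _
        _ ≤ a * (a⁻¹ * a') := mul_le_mul_left inf_le_left _
        _ = a' := by group
    · calc (a ⊓ b) * (a⁻¹ * a' ⊓ b⁻¹ * b') ≤ (a ⊓ b) * (b⁻¹ * b') :=
            mul_le_mul_right inf_le_right _
        _ ≤ b * (b⁻¹ * b') := mul_le_mul_left inf_le_right _
        _ = b' := by group
  have inv : ∀ {a a' : G}, a⁻¹ * a' ∈ M → a'⁻¹ * a ∈ M := by
    intro a a' h
    have := M.inv_mem h
    rwa [mul_inv_rev, inv_inv] at this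
  obtain ⟨m, hm, hm'⟩ := dn h1 h2
  obtain ⟨l, hl, hl'⟩ := dn (inv h1) (inv h2)
  refine hconv m l⁻¹ _ hm (M.inv_mem hl) hm' ?_
  rw [le_inv', mul_inv_rev, inv_inv]
  exact hl'

/-- the lattice structure on the quotient by an l-ideal -/
@[reducible] noncomputable def quotLattice (hM : IsLIdeal M) : Lattice (G ⧸ M) :=
  letI : Max (G ⧸ M) := ⟨Quotient.map₂ (· ⊔ ·) (fun a a' h1 b b' h2 =>
    QuotientGroup.leftRel_apply.2
      (lideal_sup M hM (QuotientGroup.leftRel_apply.1 h1) (QuotientGroup.leftRel_apply.1 h2)))⟩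
  letI : Min (G ⧸ M) := ⟨Quotient.map₂ (· ⊓ ·) (fun a a' h1 b b' h2 =>
    QuotientGroup.leftRel_apply.2
      (lideal_inf M hM (QuotientGroup.leftRel_apply.1 h1) (QuotientGroup.leftRel_apply.1 h2)))⟩
  Lattice.mk'
    (by
      rintro ⟨a⟩ ⟨b⟩
      exact congrArg (QuotientGroup.mk (s := M)) (sup_comm a b))
    (by
      rintro ⟨a⟩ ⟨b⟩ ⟨c⟩
      exact congrArg (QuotientGroup.mk (s := M)) (sup_assoc a b c))
    (by
      rintro ⟨a⟩ ⟨b⟩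
      exact congrArg (QuotientGroup.mk (s := M)) (inf_comm a b))
    (by
      rintro ⟨a⟩ ⟨b⟩ ⟨c⟩
      exact congrArg (QuotientGroup.mk (s := M)) (inf_assoc a b c))
    (by
      rintro ⟨a⟩ ⟨b⟩
      exact congrArg (QuotientGroup.mk (s := M)) (sup_inf_self (a := a) (b := b)))
    (by
      rintro ⟨a⟩ ⟨b⟩
      exact congrArg (QuotientGroup.mk (s := M)) (inf_sup_self (a := a) (b := b)))

theorem quot_sup (hM : IsLIdeal M) (a b : G) :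
    letI := quotLattice M hM
    ((a : G ⧸ M) ⊔ (b : G ⧸ M)) = ((a ⊔ b : G) : G ⧸ M) := rfl

theorem quot_inf (hM : IsLIdeal M) (a b : G) :
    letI := quotLattice M hM
    ((a : G ⧸ M) ⊓ (b : G ⧸ M)) = ((a ⊓ b : G) : G ⧸ M) := rfl

theorem quot_le (hM : IsLIdeal M) {x y : G ⧸ M} :
    letI := quotLattice M hM
    x ≤ y ↔ x ⊔ y = y := by
  letI := quotLattice M hM
  exact sup_eq_right.symm

theorem quot_leftMono [hn : M.Normal] (hM : IsLIdeal M) :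
    letI := quotLattice M hM
    MulLeftMono (G ⧸ M) := by
  letI := quotLattice M hM
  refine ⟨?_⟩
  rintro ⟨c⟩ ⟨a⟩ ⟨b⟩ h
  have h' : ((a : G ⧸ M) ⊔ (b : G ⧸ M)) = (b : G ⧸ M) := sup_eq_right.2 h
  have : ((c : G ⧸ M) * (a : G ⧸ M)) ⊔ ((c : G ⧸ M) * (b : G ⧸ M)) =
      (c : G ⧸ M) * (b : G ⧸ M) := by
    calc ((c : G ⧸ M) * (a : G ⧸ M)) ⊔ ((c : G ⧸ M) * (b : G ⧸ M))
        = ((c * a ⊔ c * b : G) : G ⧸ M) := rfl
      _ = ((c * (a ⊔ b) : G) : G ⧸ M) := by rw [mul_sup]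
      _ = (c : G ⧸ M) * ((a : G ⧸ M) ⊔ (b : G ⧸ M)) := rfl
      _ = _ := by rw [h']
  exact sup_eq_right.1 this

theorem quot_rightMono [hn : M.Normal] (hM : IsLIdeal M) :
    letI := quotLattice M hM
    MulRightMono (G ⧸ M) := by
  letI := quotLattice M hM
  refine ⟨?_⟩
  rintro ⟨c⟩ ⟨a⟩ ⟨b⟩ h
  have h' : ((a : G ⧸ M) ⊔ (b : G ⧸ M)) = (b : G ⧸ M) := sup_eq_right.2 h
  have : ((a : G ⧸ M) * (c : G ⧸ M)) ⊔ ((b : G ⧸ M) * (c : G ⧸ M)) =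
      (b : G ⧸ M) * (c : G ⧸ M) := by
    calc ((a : G ⧸ M) * (c : G ⧸ M)) ⊔ ((b : G ⧸ M) * (c : G ⧸ M))
        = ((a * c ⊔ b * c : G) : G ⧸ M) := rfl
      _ = (((a ⊔ b) * c : G) : G ⧸ M) := by rw [sup_mul]
      _ = ((a : G ⧸ M) ⊔ (b : G ⧸ M)) * (c : G ⧸ M) := rfl
      _ = _ := by rw [h']
  exact sup_eq_right.1 this

/-- the l-ideals avoiding `n0` have a maximal member -/
theorem exists_max (n0 : G) (hn0 : n0 ≠ 1) :
    ∃ M : Subgroup G, IsLIdeal M ∧ n0 ∉ M ∧ ∀ M' : Subgroup G, IsLIdeal M' → M ≤ M' →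
      n0 ∉ M' → M' = M := by
  let S : Set (Subgroup G) := {H | IsLIdeal H ∧ n0 ∉ H}
  have hbot : (⊥ : Subgroup G) ∈ S := by
    refine ⟨⟨inferInstance, ?_, ?_⟩, ?_⟩
    · intro a b g ha hb h1 h2
      rw [Subgroup.mem_bot] at ha hb ⊢
      subst ha; subst hb
      exact le_antisymm h2 h1
    · intro a b ha hb
      rw [Subgroup.mem_bot] at ha hb
      subst ha; subst hb
      simp
    · rw [Subgroup.mem_bot]; exact hn0
  obtain ⟨M, -, hM⟩ := zorn_le_nonempty₀ S (by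
    intro c hc hchain y hy
    have hdir : DirectedOn (· ≤ ·) c := hchain.directedOn
    have hmem : ∀ {x : G}, x ∈ sSup c ↔ ∃ s ∈ c, x ∈ s :=
      Subgroup.mem_sSup_of_directedOn ⟨y, hy⟩ hdir
    refine ⟨sSup c, ⟨⟨⟨?_⟩, ?_, ?_⟩, ?_⟩, fun z hz => le_sSup hz⟩
    · intro n hn g
      obtain ⟨s, hs, hns⟩ := hmem.1 hn
      exact hmem.2 ⟨s, hs, (hc hs).1.1.conj_mem n hns g⟩
    · intro a b g ha hb h1 h2
      obtain ⟨s, hs, has⟩ := hmem.1 ha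
      obtain ⟨t, ht, hbt⟩ := hmem.1 hb
      obtain ⟨r, hr, hsr, htr⟩ := hdir s hs t ht
      exact hmem.2 ⟨r, hr, (hc hr).1.2.1 a b g (hsr has) (htr hbt) h1 h2⟩
    · intro a b ha hb
      obtain ⟨s, hs, has⟩ := hmem.1 ha
      obtain ⟨t, ht, hbt⟩ := hmem.1 hb
      obtain ⟨r, hr, hsr, htr⟩ := hdir s hs t ht
      have := (hc hr).1.2.2 a b (hsr has) (htr hbt)
      exact ⟨hmem.2 ⟨r, hr, this.1⟩, hmem.2 ⟨r, hr, this.2⟩⟩
    · intro h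
      obtain ⟨s, hs, hns⟩ := hmem.1 h
      exact (hc hs).2 hns) ⊥ hbot
  refine ⟨M, hM.prop.1, hM.prop.2, fun M' h1 h2 h3 => ?_⟩
  exact le_antisymm (hM.le_of_ge ⟨h1, h3⟩ h2) h2

/-- The quotient construction. -/
theorem main_quot (N : Subgroup G) (hN : N.Normal) (n0 u : G) (hn0N : n0 ∈ N) (hn0 : n0 ≠ 1)
    (hu : u ≤ n0 ⊔ n0⁻¹) (hu1 : 1 ≤ u)
    (hconj : ∀ g : G, ∃ x : G, g ≤ x * u * x⁻¹)
    (hbal : ∀ n ∈ N, ∃ t : G, n⁻¹ ≤ t⁻¹ * (n ⊔ 1) * t * (t⁻¹ * (n ⊔ 1) * t)) :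
    ∃ (G' : Type) (_ : Group G') (_ : Lattice G') (_ : MulLeftMono G') (_ : MulRightMono G'),
      (∀ H : Subgroup G', H.Normal →
          (∀ a b g : G', a ∈ H → b ∈ H → a ≤ g → g ≤ b → g ∈ H) →
          (∀ a b : G', a ∈ H → b ∈ H → a ⊔ b ∈ H ∧ a ⊓ b ∈ H) →
          H = ⊥ ∨ H = ⊤) ∧
      ∃ H : Subgroup G', H.Normal ∧
        (∀ a b g : G', a ∈ H → b ∈ H → a ≤ g → g ≤ b → g ∈ H) ∧ H ≠ ⊥ ∧ H ≠ ⊤ := by
  -- (a): an l-ideal containing n0 is everything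
  have htop : ∀ H : Subgroup G, IsLIdeal H → n0 ∈ H → H = ⊤ := by
    intro H ⟨hH1, hH2, hH3⟩ hmem
    have hu' : u ∈ H := hH2 1 (n0 ⊔ n0⁻¹) u H.one_mem (hH3 _ _ hmem (H.inv_mem hmem)).1 hu1 hu
    rw [eq_top_iff]
    intro g _
    obtain ⟨x, hx⟩ := hconj g
    obtain ⟨y, hy⟩ := hconj g⁻¹
    have h1 := hH1.conj_mem u hu' x
    have h2 := hH1.conj_mem u hu' y
    exact hH2 (y * u * y⁻¹)⁻¹ (x * u * x⁻¹) g (H.inv_mem h2) h1 (inv_le'.2 (by simpa using hy)) hx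
  -- (b): balancedness
  have hb : ∀ H : Subgroup G, IsLIdeal H → ∀ n ∈ N, n ⊔ 1 ∈ H → n ∈ H := by
    intro H ⟨hH1, hH2, hH3⟩ n hn hmem
    obtain ⟨t, ht⟩ := hbal n hn
    have h1 : t⁻¹ * (n ⊔ 1) * t ∈ H := by
      have := hH1.conj_mem (n ⊔ 1) hmem t⁻¹
      rwa [inv_inv] at this
    have h2 := H.mul_mem h1 h1
    refine hH2 (t⁻¹ * (n ⊔ 1) * t * (t⁻¹ * (n ⊔ 1) * t))⁻¹ (n ⊔ 1) n (H.inv_mem h2) hmem
      (inv_le'.2 ?_) le_sup_left
    exact ht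
  obtain ⟨M, hM, hn0M, hmax⟩ := exists_max n0 hn0
  haveI hMn : M.Normal := hM.1
  letI : Lattice (G ⧸ M) := quotLattice M hM
  haveI hl : MulLeftMono (G ⧸ M) := quot_leftMono M hM
  haveI hr : MulRightMono (G ⧸ M) := quot_rightMono M hM
  refine ⟨G ⧸ M, inferInstance, inferInstance, hl, hr, ?_, ?_⟩
  · intro H hH1 hH2 hH3
    have hpre : IsLIdeal (H.comap (QuotientGroup.mk' M)) := by
      refine ⟨hH1.comap _, ?_, ?_⟩
      · intro a b g ha hb h1 h2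
        refine hH2 _ _ _ (Subgroup.mem_comap.1 ha) (Subgroup.mem_comap.1 hb) ?_ ?_
        · refine (quot_le M hM).2 ?_
          change ((a ⊔ g : G) : G ⧸ M) = (g : G ⧸ M)
          rw [sup_eq_right.2 h1]
        · refine (quot_le M hM).2 ?_
          change ((g ⊔ b : G) : G ⧸ M) = (b : G ⧸ M)
          rw [sup_eq_right.2 h2]
      · intro a b ha hb
        exact hH3 _ _ (Subgroup.mem_comap.1 ha) (Subgroup.mem_comap.1 hb)
    have hle : M ≤ H.comap (QuotientGroup.mk' M) := by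
      intro m hm
      rw [Subgroup.mem_comap, QuotientGroup.mk'_apply, (QuotientGroup.eq_one_iff m).2 hm]
      exact H.one_mem
    by_cases hc : n0 ∈ H.comap (QuotientGroup.mk' M)
    · right
      have h1 := htop _ hpre hc
      rw [eq_top_iff]
      rintro ⟨g⟩ _
      have : g ∈ H.comap (QuotientGroup.mk' M) := by rw [h1]; exact Subgroup.mem_top g
      exact this
    · left
      have h1 := hmax _ hpre hle hc
      rw [eq_bot_iff]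
      rintro ⟨g⟩ hg
      have : g ∈ H.comap (QuotientGroup.mk' M) := hg
      rw [h1] at this
      exact (QuotientGroup.eq_one_iff g).2 this
  · -- the convex normal subgroup
    have hneg : ∀ n ∈ N, (n : G ⧸ M) ≤ 1 → n ∈ M := by
      intro n hn h
      apply hb M hM n hn
      have h1 : ((n ⊔ 1 : G) : G ⧸ M) = (1 : G ⧸ M) := (quot_le M hM).1 h
      exact (QuotientGroup.eq_one_iff _).1 h1
    refine ⟨N.map (QuotientGroup.mk' M), ?_, ?_, ?_, ?_⟩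
    · exact hN.map _ (QuotientGroup.mk'_surjective M)
    · rintro a b g ⟨n, hn, rfl⟩ ⟨n', hn', rfl⟩ h1 h2
      have h3 : ((n'⁻¹ * n : G) : G ⧸ M) ≤ 1 := by
        have h4 : (n : G ⧸ M) ≤ (n' : G ⧸ M) := h1.trans h2
        have : ((n'⁻¹ * n : G) : G ⧸ M) = (n' : G ⧸ M)⁻¹ * (n : G ⧸ M) := rfl
        rw [this, inv_mul_le_iff_le_mul, mul_one]
        exact h4
      have h5 := hneg _ (N.mul_mem (N.inv_mem hn') hn) h3
      have h6 : (n' : G ⧸ M) = (n : G ⧸ M) := QuotientGroup.eq.2 h5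
      have h2' : g ≤ (n' : G ⧸ M) := h2
      rw [h6] at h2'
      have h7 : g = (n : G ⧸ M) := le_antisymm h2' h1
      exact ⟨n, hn, h7.symm⟩
    · intro h
      apply hn0M
      have : (n0 : G ⧸ M) ∈ N.map (QuotientGroup.mk' M) := ⟨n0, hn0N, rfl⟩
      rw [h, Subgroup.mem_bot] at this
      exact (QuotientGroup.eq_one_iff n0).1 this
    · intro h
      have : ((u⁻¹ : G) : G ⧸ M) ∈ N.map (QuotientGroup.mk' M) := by
        rw [h]; exact Subgroup.mem_top _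
      obtain ⟨n, hn, hnu⟩ := this
      have hnu' : (n : G ⧸ M) = ((u⁻¹ : G) : G ⧸ M) := hnu
      have h1 : (n : G ⧸ M) ≤ 1 := by
        rw [hnu']
        refine (quot_le M hM).2 ?_
        change ((u⁻¹ ⊔ 1 : G) : G ⧸ M) = ((1 : G) : G ⧸ M)
        rw [sup_eq_right.2 (inv_le_one'.2 hu1)]
      have h2 := hneg n hn h1
      have h3 : u⁻¹ ∈ M := by
        rw [← QuotientGroup.eq_one_iff, ← hnu', QuotientGroup.eq_one_iff]
        exact h2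
      have h4 : u ∈ M := by simpa using M.inv_mem h3
      -- then M is everything
      apply hn0M
      obtain ⟨x, hx⟩ := hconj n0
      obtain ⟨y, hy⟩ := hconj n0⁻¹
      have e1 := hMn.conj_mem u h4 x
      have e2 := hMn.conj_mem u h4 y
      exact hM.2.1 (y * u * y⁻¹)⁻¹ (x * u * x⁻¹) n0 (M.inv_mem e2) e1
        (inv_le'.2 (by simpa using hy)) hx

end

end Pool.Agent.MP_918b6a_al
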